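import Mathlib

/-!
# The Galois orbits of almost all special points in products of Shimura curves are equidistributed

Let `X_1, …, X_n` be connected Shimura curves (compactified by the cusps if necessary), for instance
all of them the `j`-line, and let `Λ_{k,1}, …, Λ_{k,n}` be orders in CM fields (equal or different)
whose discriminants tend to infinity with `k`. We show that the Galois orbits over every number field
`F` of almost all the special points `(x_1, …, x_n)` of `X_1 × … × X_n` such that `x_j` has complex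
multiplication by `Λ_{k,j}` are equidistributed as `k → ∞`:

* for each continuous function `f` the average of `|∫ f dμ_x - ∫ f dμ|` over all these points `x`
  tends to `0` (`μ_x` is the uniform measure on the Galois orbit of `x`);
* there are sets `E_k` containing a proportion tending to `1` of these points such that `μ_{x_k} → μ`
  weakly for all sequences with `x_k ∈ E_k` for all large `k`.

If the CM fields of the coordinates are equal (for instance if all the `Λ_{k,j}` are one order `Λ_k`),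
the equidistribution of the Galois orbits of all generic sequences is the mixing conjecture of Michel
and Venkatesh, known under splitting conditions and up to Siegel zeros (Khayutin).

The structure `SpecialSpace` lists what is used of complex multiplication, and
`TwistedEquidistribution` is the equidistribution of the CM points by a given order with a character
of the class group, which is known for all Shimura curves over totally real fields (Duke; Michel,
Harcos-Michel, Zhang, Michel-Venkatesh).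

Proof. The orbits under the Artin map are the cosets of a subgroup `H` of `∏ Cl(Λ_j)` whose
projections have bounded index. The second moment of the averages over cosets of `H` of a product of
functions is the average over `H` of the product of the autocorrelations (`second_moment`), and the
autocorrelation of each factor is nearly constant in the mean over `Cl(Λ_j)` (`corr_estimate`), since
its Fourier coefficients are the squares of those of the function. Products of functions of the
coordinates are dense (`dense_span`); a diagonal argument gives the sets `E_k` (`exists_sets`).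
-/

open MeasureTheory Filter Topology Finset

set_option autoImplicit false

namespace Pool.Agent.Results.MP_9177b7_ag.AlmostAllPacketProducts

/-- **Complex multiplication.** `X` is a space (a compactified connected Shimura curve over a totally
real field `F₀`, for instance the compactified `j`-line over `F₀ = ℚ`) and `𝒢` the absolute Galois group
of a number field containing `F₀` over which `X` is defined. For the `j`-line:
* `Kind` is the set of the orders `Λ` in imaginary quadratic fields, `size Λ` the absolute value of the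
  discriminant, `K Λ` the subgroup of the elements of `𝒢` which are trivial on the CM field; its index
  is at most `bound` (for the `j`-line at most `2`);
* `Cl Λ = Pic(Λ)` (written additively) and `artin Λ g`, for `g` in `K Λ`, is the ideal class given by
  the Artin map of the ring class field; it is a surjective homomorphism on `K Λ` (arbitrary for
  other `g`);
* `P Λ` is the finite set of the CM points with the order `Λ`; the Galois group and `Pic(Λ)` act
  on it, and `reciprocity` is the main theorem of complex multiplication;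
* `pt` is the inclusion in the space of complex points.
For a number field `F₁ ≠ ℚ` (`𝒢` its Galois group) and for Shimura curves with several geometric
components `Cl Λ` is the image of the Galois group of `F₁ · Frac(Λ)` in the class group. -/
structure SpecialSpace (𝒢 : Type) [Group 𝒢] (X : Type) where
  /-- the orders -/
  Kind : Type
  /-- the size of the discriminant -/
  size : Kind → ℕ
  /-- the Galois group of the CM field -/
  K : Kind → Subgroup 𝒢
  /-- a bound for the index of `K` -/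
  bound : ℕ
  finiteIndex : ∀ D, (K D).FiniteIndex
  index_le : ∀ D, (K D).index ≤ bound
  /-- the ideal class group of the order -/
  Cl : Kind → Type
  grp : ∀ D, AddCommGroup (Cl D)
  fin : ∀ D, Fintype (Cl D)
  /-- the Artin map -/
  artin : ∀ D, 𝒢 → Cl D
  artin_mul : ∀ D, ∀ g ∈ K D, ∀ h ∈ K D, artin D (g * h) = artin D g + artin D h
  artin_surj : ∀ D c, ∃ g ∈ K D, artin D g = c
  /-- the special points with this order -/
  P : Kind → Type
  finP : ∀ D, Finite (P D)
  nonemptyP : ∀ D, Nonempty (P D)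
  act : ∀ D, MulAction 𝒢 (P D)
  clact : ∀ D, AddAction (Cl D) (P D)
  reciprocity : ∀ D, ∀ g ∈ K D, ∀ x : P D, g • x = artin D g +ᵥ x
  /-- the points of `X` -/
  pt : ∀ D, P D → X

attribute [instance] SpecialSpace.finiteIndex SpecialSpace.grp SpecialSpace.fin SpecialSpace.finP
  SpecialSpace.nonemptyP SpecialSpace.act SpecialSpace.clact

open Classical in
/-- **Duke's theorem with characters.** For every continuous function `φ`, uniformly in the special
point `x` and in the character `χ` of the class group of its order `Λ`, the mean value of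
`φ(c · x) χ(c)`, `c ∈ Cl(Λ)`, tends to `∫ φ dm` (if `χ = 1`), to `0` (if `χ ≠ 1`) as the discriminant of
`Λ` tends to infinity. (The power saving in the discriminant, which is known for nice `φ`, is not
needed.) -/
def TwistedEquidistribution {𝒢 : Type} [Group 𝒢] {X : Type} [TopologicalSpace X]
    [MeasurableSpace X] (S : SpecialSpace 𝒢 X) (m : Measure X) : Prop :=
  ∀ (φ : C(X, ℝ)) (ε : ℝ), 0 < ε → ∃ M : ℕ, ∀ D : S.Kind, M ≤ S.size D →
    ∀ (x : S.P D) (χ : AddChar (S.Cl D) ℂ),
      ‖(∑ c, (φ (S.pt D (c +ᵥ x)) : ℂ) * χ c) / Fintype.card (S.Cl D) -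
        (if χ = 0 then ((∫ t, φ t ∂m : ℝ) : ℂ) else 0)‖ ≤ ε

/-- The average of a function over the orbit of `x` under `ℱ` (for us the absolute Galois group of a
number field `F`), that is its integral for the measure `μ_x` of the problem. -/
noncomputable def orbitAverage {𝒢 P : Type} [Group 𝒢] [MulAction 𝒢 P] (ℱ : Subgroup 𝒢) (x : P)
    (Ψ : P → ℝ) : ℝ :=
  (∑ᶠ y ∈ MulAction.orbit ℱ x, Ψ y) / Nat.card (MulAction.orbit ℱ x)

section Fourier

/-- Fourier coefficients. -/
noncomputable def hat {A : Type} [AddCommGroup A] [Fintype A] (ψ : A → ℂ) (χ : AddChar A ℂ) : ℂ :=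
  (∑ c, ψ c * χ c) / Fintype.card A

theorem inversion {A : Type} [AddCommGroup A] [Fintype A] (ψ : A → ℂ) (g : A) :
    ψ g = ∑ χ : AddChar A ℂ, hat ψ χ * χ (-g) := by
  classical
  have h0 : (Fintype.card A : ℂ) ≠ 0 := by exact_mod_cast Fintype.card_ne_zero
  calc ψ g = (∑ c, ψ c * (if c - g = 0 then (Fintype.card A : ℂ) else 0)) / Fintype.card A := by
        rw [sum_eq_single g]
        · simp [h0]
        · intro c _ hc
          rw [if_neg (sub_ne_zero.2 hc), mul_zero]
        · intro h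
          exact absurd (mem_univ _) h
    _ = (∑ c, ψ c * ∑ χ : AddChar A ℂ, χ (c - g)) / Fintype.card A := by
        simp only [AddChar.sum_apply_eq_ite]
    _ = ∑ χ : AddChar A ℂ, hat ψ χ * χ (-g) := by
        simp only [hat, mul_sum, sum_div, sum_mul]
        rw [sum_comm]
        refine sum_congr rfl fun χ _ => sum_congr rfl fun c _ => ?_
        rw [sub_eq_add_neg, AddChar.map_add_eq_mul]
        ring

theorem conj_char {A : Type} [AddCommGroup A] [Fintype A] (χ : AddChar A ℂ) (g : A) :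
    (starRingEnd ℂ) (χ g) = χ (-g) := by
  rw [AddChar.map_neg_eq_inv, Complex.inv_def, Complex.normSq_eq_norm_sq, χ.norm_apply g]
  simp

/-- Parseval's formula for real functions. -/
theorem parseval {A : Type} [AddCommGroup A] [Fintype A] (f : A → ℝ) :
    (∑ g, f g ^ 2) / Fintype.card A = ∑ χ : AddChar A ℂ, ‖hat (fun g => (f g : ℂ)) χ‖ ^ 2 := by
  have h0 : (Fintype.card A : ℂ) ≠ 0 := by exact_mod_cast Fintype.card_ne_zero
  have key : ((∑ g, f g ^ 2 : ℝ) : ℂ) / Fintype.card A =
      ∑ χ : AddChar A ℂ, ((‖hat (fun g => (f g : ℂ)) χ‖ ^ 2 : ℝ) : ℂ) := by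
    calc ((∑ g, f g ^ 2 : ℝ) : ℂ) / Fintype.card A
        = (∑ g, (f g : ℂ) * ∑ χ : AddChar A ℂ, hat (fun g => (f g : ℂ)) χ * χ (-g)) /
            Fintype.card A := by
          congr 1
          push_cast
          refine sum_congr rfl fun g _ => ?_
          rw [← inversion (fun g => (f g : ℂ)) g, sq]
      _ = ∑ χ : AddChar A ℂ, hat (fun g => (f g : ℂ)) χ *
            (starRingEnd ℂ) (hat (fun g => (f g : ℂ)) χ) := by
          simp only [mul_sum]
          rw [sum_comm, sum_div]
          refine sum_congr rfl fun χ _ => ?_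
          have e : (starRingEnd ℂ) (hat (fun g => (f g : ℂ)) χ) =
              (∑ g, (f g : ℂ) * χ (-g)) / Fintype.card A := by
            simp only [hat, map_div₀, map_sum, map_mul, Complex.conj_ofReal, conj_char,
              Complex.conj_natCast]
          rw [e, mul_div_assoc', mul_sum]
          congr 1
          refine sum_congr rfl fun g _ => ?_
          ring
      _ = _ := by
          refine sum_congr rfl fun χ _ => ?_
          rw [Complex.mul_conj, Complex.normSq_eq_norm_sq]
  have h1 : ((((∑ g, f g ^ 2) / Fintype.card A : ℝ)) : ℂ) =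
      ((∑ χ : AddChar A ℂ, ‖hat (fun g => (f g : ℂ)) χ‖ ^ 2 : ℝ) : ℂ) := by
    push_cast at key ⊢
    exact key
  exact_mod_cast h1

/-- The autocorrelation. -/
noncomputable def corr {A : Type} [AddCommGroup A] [Fintype A] (ψ : A → ℝ) (g : A) : ℝ :=
  (∑ c, ψ (c + g) * ψ c) / Fintype.card A

/-- The mean value. -/
noncomputable def mean {A : Type} [Fintype A] (ψ : A → ℝ) : ℝ := (∑ c, ψ c) / Fintype.card A

theorem hat_corr {A : Type} [AddCommGroup A] [Fintype A] (ψ : A → ℝ) (χ : AddChar A ℂ) :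
    hat (fun g => (corr ψ g : ℂ)) χ = ((‖hat (fun g => (ψ g : ℂ)) χ‖ ^ 2 : ℝ) : ℂ) := by
  have h0 : (Fintype.card A : ℂ) ≠ 0 := by exact_mod_cast Fintype.card_ne_zero
  have e : (starRingEnd ℂ) (hat (fun g => (ψ g : ℂ)) χ) =
      (∑ g, (ψ g : ℂ) * χ (-g)) / Fintype.card A := by
    simp only [hat, map_div₀, map_sum, map_mul, Complex.conj_ofReal, conj_char,
      Complex.conj_natCast]
  have e1 : ((‖hat (fun g => (ψ g : ℂ)) χ‖ ^ 2 : ℝ) : ℂ) =
      hat (fun g => (ψ g : ℂ)) χ * (starRingEnd ℂ) (hat (fun g => (ψ g : ℂ)) χ) := by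
    rw [Complex.mul_conj, Complex.normSq_eq_norm_sq]
  rw [e1, e]
  unfold hat corr
  push_cast
  rw [div_mul_div_comm]
  have e2 : ∑ g, ((∑ c, (ψ (c + g) : ℂ) * (ψ c : ℂ)) / Fintype.card A) * χ g =
      (∑ g, ∑ c, (ψ (c + g) : ℂ) * (ψ c : ℂ) * χ g) / Fintype.card A := by
    rw [sum_div]
    refine sum_congr rfl fun g _ => ?_
    rw [← sum_mul]
    ring
  rw [e2, div_div]
  congr 1
  rw [sum_comm, mul_sum]
  refine sum_congr rfl fun c _ => ?_
  rw [sum_mul]
  rw [← Equiv.sum_comp (Equiv.addLeft c) (fun x => (ψ x : ℂ) * χ x * ((ψ c : ℂ) * χ (-c)))]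
  refine sum_congr rfl fun g _ => ?_
  rw [Equiv.coe_addLeft, AddChar.map_add_eq_mul]
  have : χ c * χ (-c) = 1 := by
    rw [← AddChar.map_add_eq_mul, add_neg_cancel, AddChar.map_zero_eq_one]
  linear_combination (-(ψ (c + g) : ℂ) * (ψ c : ℂ) * χ g) * this

/-- The autocorrelation is nearly constant, in mean, if the Fourier coefficients are small. -/
theorem corr_estimate {A : Type} [AddCommGroup A] [Fintype A] (ψ : A → ℝ) (ε B : ℝ) (hε : 0 ≤ ε)
    (hB : 0 ≤ B) (hψ : ∀ c, |ψ c| ≤ B)
    (h : ∀ χ : AddChar A ℂ, χ ≠ 0 → ‖hat (fun g => (ψ g : ℂ)) χ‖ ≤ ε) :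
    (∑ g, |corr ψ g - mean ψ ^ 2|) / Fintype.card A ≤ ε * B := by
  classical
  have h0 : (0 : ℝ) < Fintype.card A := by exact_mod_cast Fintype.card_pos
  have hm : hat (fun g => (ψ g : ℂ)) 0 = ((mean ψ : ℝ) : ℂ) := by
    unfold hat mean
    push_cast
    simp
  set κ : A → ℝ := fun g => corr ψ g - mean ψ ^ 2 with hκ
  have hκhat : ∀ χ : AddChar A ℂ, ‖hat (fun g => (κ g : ℂ)) χ‖ ≤
      ε * ‖hat (fun g => (ψ g : ℂ)) χ‖ := by
    intro χ
    have e : hat (fun g => (κ g : ℂ)) χ = hat (fun g => (corr ψ g : ℂ)) χ -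
        (if χ = 0 then ((mean ψ ^ 2 : ℝ) : ℂ) else 0) := by
      unfold hat
      simp only [hκ]
      push_cast
      simp only [sub_mul, sum_sub_distrib, sub_div]
      congr 1
      rw [← mul_sum, AddChar.sum_eq_ite]
      have h0' : (Fintype.card A : ℂ) ≠ 0 := by exact_mod_cast Fintype.card_ne_zero
      split_ifs with hχ
      · field_simp
      · simp
    rw [e, hat_corr]
    by_cases hχ : χ = 0
    · rw [if_pos hχ, hχ, hm, Complex.norm_real, Real.norm_eq_abs, sq_abs, sub_self, norm_zero]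
      positivity
    · rw [if_neg hχ, sub_zero, Complex.norm_real, Real.norm_eq_abs, abs_of_nonneg (sq_nonneg _), sq]
      exact mul_le_mul_of_nonneg_right (h χ hχ) (norm_nonneg _)
  have h2 : (∑ g, κ g ^ 2) / Fintype.card A ≤ (ε * B) ^ 2 := by
    rw [parseval]
    calc ∑ χ : AddChar A ℂ, ‖hat (fun g => (κ g : ℂ)) χ‖ ^ 2
        ≤ ∑ χ : AddChar A ℂ, (ε * ‖hat (fun g => (ψ g : ℂ)) χ‖) ^ 2 :=
          sum_le_sum fun χ _ => pow_le_pow_left₀ (norm_nonneg _) (hκhat χ) 2
      _ = ε ^ 2 * ((∑ g, ψ g ^ 2) / Fintype.card A) := by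
          rw [parseval, mul_sum]
          exact sum_congr rfl fun χ _ => by ring
      _ ≤ ε ^ 2 * B ^ 2 := by
          refine mul_le_mul_of_nonneg_left ?_ (sq_nonneg _)
          rw [div_le_iff₀ h0]
          calc ∑ g, ψ g ^ 2 ≤ ∑ _g : A, B ^ 2 := sum_le_sum fun g _ => by
                rw [← sq_abs]; exact pow_le_pow_left₀ (abs_nonneg _) (hψ g) 2
            _ = B ^ 2 * Fintype.card A := by
                rw [sum_const, card_univ, nsmul_eq_mul, mul_comm]
      _ = (ε * B) ^ 2 := by ring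
  have h1 : ((∑ g, |κ g|) / Fintype.card A) ^ 2 ≤ (ε * B) ^ 2 := by
    refine le_trans ?_ h2
    have := sq_sum_le_card_mul_sum_sq (s := (univ : Finset A)) (f := fun g => |κ g|)
    simp only [sq_abs] at this
    rw [card_univ] at this
    rw [div_pow, div_le_div_iff₀ (by positivity) h0]
    nlinarith
  exact abs_le_of_sq_le_sq' h1 (by positivity) |>.2

end Fourier

section Product

variable {n : ℕ} {G : Fin n → Type}

theorem sum_prod_univ [∀ j, Fintype (G j)] (f : ∀ j, G j → ℝ) :
    ∑ b : ∀ j, G j, ∏ j, f j (b j) = ∏ j, ∑ c, f j c := by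
  classical
  rw [prod_univ_sum, Fintype.piFinset_univ]

variable [∀ j, AddCommGroup (G j)]

/-- The average over a coset. -/
noncomputable def cosetAvg (H : AddSubgroup (∀ j, G j)) [Fintype H] (ψ : ∀ j, G j → ℝ)
    (b : ∀ j, G j) : ℝ :=
  (∑ h : H, ∏ j, ψ j ((h : ∀ j, G j) j + b j)) / Fintype.card H

variable [∀ j, Fintype (G j)]

omit [∀ j, AddCommGroup (G j)] in
theorem card_pi_cast : (Fintype.card (∀ j, G j) : ℝ) = ∏ j, (Fintype.card (G j) : ℝ) := by
  rw [Fintype.card_pi]
  push_cast
  rfl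

theorem mean_cosetAvg (H : AddSubgroup (∀ j, G j)) [Fintype H] (ψ : ∀ j, G j → ℝ) :
    mean (cosetAvg H ψ) = ∏ j, mean (ψ j) := by
  have hH : (Fintype.card H : ℝ) ≠ 0 := by exact_mod_cast Fintype.card_ne_zero
  unfold mean cosetAvg
  rw [← sum_div, sum_comm]
  have : ∀ h : H, ∑ b : ∀ j, G j, ∏ j, ψ j ((h : ∀ j, G j) j + b j) = ∏ j, ∑ c, ψ j c := by
    intro h
    rw [sum_prod_univ (fun j c => ψ j ((h : ∀ j, G j) j + c))]
    refine prod_congr rfl fun j _ => ?_
    exact Equiv.sum_comp (Equiv.addLeft ((h : ∀ j, G j) j)) (ψ j)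
  simp only [this]
  rw [sum_const, card_univ, nsmul_eq_mul, mul_div_cancel_left₀ _ hH, card_pi_cast, prod_div_distrib]

theorem second_moment (H : AddSubgroup (∀ j, G j)) [Fintype H] (ψ : ∀ j, G j → ℝ) :
    mean (fun b => cosetAvg H ψ b ^ 2) =
      (∑ h : H, ∏ j, corr (ψ j) ((h : ∀ j, G j) j)) / Fintype.card H := by
  have hH : (Fintype.card H : ℝ) ≠ 0 := by exact_mod_cast Fintype.card_ne_zero
  have hA : (Fintype.card (∀ j, G j) : ℝ) ≠ 0 := by exact_mod_cast Fintype.card_ne_zero
  have e1 : ∀ h h' : H, ∑ b : ∀ j, G j, (∏ j, ψ j ((h : ∀ j, G j) j + b j)) *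
      (∏ j, ψ j ((h' : ∀ j, G j) j + b j)) =
      Fintype.card (∀ j, G j) * ∏ j, corr (ψ j) (((h - h' : H) : ∀ j, G j) j) := by
    intro h h'
    simp only [← prod_mul_distrib]
    rw [sum_prod_univ (fun j c => ψ j ((h : ∀ j, G j) j + c) * ψ j ((h' : ∀ j, G j) j + c)),
      card_pi_cast, ← prod_mul_distrib]
    refine prod_congr rfl fun j _ => ?_
    have h0 : (Fintype.card (G j) : ℝ) ≠ 0 := by exact_mod_cast Fintype.card_ne_zero
    unfold corr
    rw [mul_div_cancel₀ _ h0]
    rw [← Equiv.sum_comp (Equiv.addLeft ((h' : ∀ j, G j) j))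
      (fun c => ψ j (c + ((h - h' : H) : ∀ j, G j) j) * ψ j c)]
    refine sum_congr rfl fun c _ => ?_
    simp only [Equiv.coe_addLeft, AddSubgroup.coe_sub, Pi.sub_apply]
    congr 2
    abel
  unfold mean cosetAvg
  have e2 : ∀ b : ∀ j, G j, ((∑ h : H, ∏ j, ψ j ((h : ∀ j, G j) j + b j)) / Fintype.card H) ^ 2 =
      (∑ h' : H, ∑ h : H, (∏ j, ψ j ((h : ∀ j, G j) j + b j)) *
        (∏ j, ψ j ((h' : ∀ j, G j) j + b j))) / (Fintype.card H) ^ 2 := by
    intro b
    rw [div_pow, sq (∑ h : H, _), sum_mul_sum, sum_comm]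
  simp only [e2]
  rw [← sum_div, sum_comm]
  have e3 : ∀ h' : H, ∑ b : ∀ j, G j, ∑ h : H, (∏ j, ψ j ((h : ∀ j, G j) j + b j)) *
        (∏ j, ψ j ((h' : ∀ j, G j) j + b j)) =
      Fintype.card (∀ j, G j) * ∑ h : H, ∏ j, corr (ψ j) ((h : ∀ j, G j) j) := by
    intro h'
    rw [sum_comm]
    simp only [e1]
    rw [← mul_sum]
    congr 1
    exact Equiv.sum_comp (Equiv.subRight h') (fun h : H => ∏ j, corr (ψ j) ((h : ∀ j, G j) j))
  simp only [e3]
  rw [sum_const, card_univ, nsmul_eq_mul]
  field_simp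

theorem prod_diff (x y : Fin n → ℝ) (M : ℝ) (hM : 1 ≤ M) (hx : ∀ j, |x j| ≤ M)
    (hy : ∀ j, |y j| ≤ M) : |∏ j, x j - ∏ j, y j| ≤ (∑ j, |x j - y j|) * M ^ n := by
  have key : ∀ T : Finset (Fin n), |∏ j ∈ T, x j - ∏ j ∈ T, y j| ≤
      (∑ j ∈ T, |x j - y j|) * M ^ T.card := by
    intro T
    induction T using Finset.induction_on with
    | empty => simp
    | insert i T hi ih =>
      rw [prod_insert hi, prod_insert hi, sum_insert hi, card_insert_of_notMem hi]
      have e : x i * ∏ j ∈ T, x j - y i * ∏ j ∈ T, y j =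
          (x i - y i) * ∏ j ∈ T, x j + y i * (∏ j ∈ T, x j - ∏ j ∈ T, y j) := by ring
      rw [e]
      have hp : |∏ j ∈ T, x j| ≤ M ^ T.card := by
        rw [abs_prod]
        calc ∏ j ∈ T, |x j| ≤ ∏ _j ∈ T, M := prod_le_prod (fun _ _ => abs_nonneg _) fun j _ => hx j
          _ = M ^ T.card := by rw [prod_const]
      have hM0 : 0 ≤ M := by linarith
      have hMp : M ^ T.card ≤ M ^ (T.card + 1) := pow_le_pow_right₀ hM (Nat.le_succ _)
      calc |(x i - y i) * ∏ j ∈ T, x j + y i * (∏ j ∈ T, x j - ∏ j ∈ T, y j)|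
          ≤ |x i - y i| * |∏ j ∈ T, x j| + |y i| * |∏ j ∈ T, x j - ∏ j ∈ T, y j| := by
            refine le_trans (abs_add_le _ _) ?_
            rw [abs_mul, abs_mul]
        _ ≤ |x i - y i| * M ^ (T.card + 1) + M * ((∑ j ∈ T, |x j - y j|) * M ^ T.card) := by
            refine add_le_add ?_ ?_
            · exact mul_le_mul_of_nonneg_left (hp.trans hMp) (abs_nonneg _)
            · exact mul_le_mul (hy i) ih (abs_nonneg _) hM0
        _ = (|x i - y i| + ∑ j ∈ T, |x j - y j|) * M ^ (T.card + 1) := by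
            rw [pow_succ]; ring
  have := key univ
  simpa using this

/-- The distribution of a coordinate of a random element of `H`. -/
theorem sum_coord_le [∀ j, DecidableEq (G j)] (H : AddSubgroup (∀ j, G j)) [Fintype H] (j : Fin n) (I : ℕ)
    (hI : Fintype.card (G j) ≤ I * ((univ : Finset H).image (fun h : H => (h : ∀ j, G j) j)).card)
    (F : G j → ℝ) (hF : ∀ c, 0 ≤ F c) :
    (∑ h : H, F ((h : ∀ j, G j) j)) / Fintype.card H ≤ I * ((∑ c, F c) / Fintype.card (G j)) := by
  let p : H →+ G j := (Pi.evalAddMonoidHom G j).comp H.subtype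
  set U := (univ : Finset H).image (fun h : H => (h : ∀ j, G j) j) with hU
  set r := ((univ : Finset H).filter (fun h => p h = 0)).card with hr
  have hfib : ∀ u ∈ U, ((univ : Finset H).filter (fun h => p h = u)).card = r := by
    intro u hu
    rw [hU, mem_image] at hu
    obtain ⟨h, -, rfl⟩ := hu
    exact AddMonoidHom.card_fiber_eq_of_mem_range p ⟨h, rfl⟩ ⟨0, map_zero p⟩
  have hcard : Fintype.card H = U.card * r := by
    rw [← card_univ, card_eq_sum_card_image (fun h : H => (h : ∀ j, G j) j) univ, ← hU]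
    have e : ∑ u ∈ U, ((univ : Finset H).filter (fun h : H => (h : ∀ j, G j) j = u)).card =
        ∑ _u ∈ U, r := sum_congr rfl (fun u hu => hfib u hu)
    rw [e, sum_const, smul_eq_mul]
  have hsum : ∑ h : H, F ((h : ∀ j, G j) j) = r * ∑ u ∈ U, F u := by
    rw [← sum_fiberwise_of_maps_to (s := (univ : Finset H)) (t := U)
      (g := fun h : H => (h : ∀ j, G j) j) (fun h _ => mem_image_of_mem _ (mem_univ h)), mul_sum]
    refine sum_congr rfl fun u hu => ?_
    rw [sum_congr rfl (g := fun _ => F u) (fun h hh => by rw [(mem_filter.1 hh).2]), sum_const,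
      nsmul_eq_mul]
    congr 1
    exact_mod_cast hfib u hu
  have hH0 : (0 : ℝ) < Fintype.card H := by exact_mod_cast Fintype.card_pos
  have hG0 : (0 : ℝ) < Fintype.card (G j) := by exact_mod_cast Fintype.card_pos
  have hle : ∑ u ∈ U, F u ≤ ∑ c, F c :=
    sum_le_sum_of_subset_of_nonneg (subset_univ _) fun c _ _ => hF c
  have hI' : (Fintype.card (G j) : ℝ) ≤ I * U.card := by exact_mod_cast hI
  have hHc : (Fintype.card H : ℝ) = U.card * r := by exact_mod_cast hcard
  have hS0 : 0 ≤ ∑ c, F c := sum_nonneg fun c _ => hF c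
  rw [hsum, div_le_iff₀ hH0, hHc]
  have h1 : (r : ℝ) * ∑ u ∈ U, F u ≤ r * ∑ c, F c := mul_le_mul_of_nonneg_left hle (Nat.cast_nonneg _)
  refine h1.trans ?_
  have h2 : (I : ℝ) * ((∑ c, F c) / Fintype.card (G j)) * (U.card * r) =
      (r * ∑ c, F c) * ((I * U.card) / Fintype.card (G j)) := by ring
  rw [h2]
  refine le_mul_of_one_le_right (mul_nonneg (Nat.cast_nonneg _) hS0) ?_
  rw [one_le_div hG0]
  exact hI'

theorem abs_corr_le (j : Fin n) (ψ : G j → ℝ) (B : ℝ) (hψ : ∀ c, |ψ c| ≤ B) (g : G j) :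
    |corr ψ g| ≤ B ^ 2 := by
  have h0 : (0 : ℝ) < Fintype.card (G j) := by exact_mod_cast Fintype.card_pos
  unfold corr
  rw [abs_div, abs_of_pos h0, div_le_iff₀ h0]
  calc |∑ c, ψ (c + g) * ψ c| ≤ ∑ c, |ψ (c + g) * ψ c| := abs_sum_le_sum_abs _ _
    _ ≤ ∑ _c : G j, B ^ 2 := sum_le_sum fun c _ => by
        rw [abs_mul, sq]
        exact mul_le_mul (hψ _) (hψ _) (abs_nonneg _) ((abs_nonneg _).trans (hψ c))
    _ = B ^ 2 * Fintype.card (G j) := by rw [sum_const, card_univ, nsmul_eq_mul, mul_comm]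

theorem abs_mean_le (j : Fin n) (ψ : G j → ℝ) (B : ℝ) (hψ : ∀ c, |ψ c| ≤ B) : |mean ψ| ≤ B := by
  have h0 : (0 : ℝ) < Fintype.card (G j) := by exact_mod_cast Fintype.card_pos
  unfold mean
  rw [abs_div, abs_of_pos h0, div_le_iff₀ h0]
  calc |∑ c, ψ c| ≤ ∑ c, |ψ c| := abs_sum_le_sum_abs _ _
    _ ≤ ∑ _c : G j, B := sum_le_sum fun c _ => hψ c
    _ = B * Fintype.card (G j) := by rw [sum_const, card_univ, nsmul_eq_mul, mul_comm]

/-- Averages over almost all cosets of `H` are close to the product of the means. -/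
theorem l1_estimate [∀ j, DecidableEq (G j)] (H : AddSubgroup (∀ j, G j)) [Fintype H] (ψ : ∀ j, G j → ℝ) (ε B : ℝ) (I : ℕ)
    (hε : 0 ≤ ε) (hB : 1 ≤ B) (hψ : ∀ j c, |ψ j c| ≤ B)
    (hI : ∀ j, Fintype.card (G j) ≤ I * ((univ : Finset H).image (fun h : H => (h : ∀ j, G j) j)).card)
    (h : ∀ j (χ : AddChar (G j) ℂ), χ ≠ 0 → ‖hat (fun g => (ψ j g : ℂ)) χ‖ ≤ ε) :
    mean (fun b => |cosetAvg H ψ b - ∏ j, mean (ψ j)|) ≤
      Real.sqrt (n * (I * (ε * B)) * (B ^ 2) ^ n) := by
  have hH0 : (0 : ℝ) < Fintype.card H := by exact_mod_cast Fintype.card_pos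
  have hA0 : (0 : ℝ) < Fintype.card (∀ j, G j) := by exact_mod_cast Fintype.card_pos
  set μ := ∏ j, mean (ψ j) with hμ
  have h1 : mean (fun b => (cosetAvg H ψ b - μ) ^ 2) =
      (∑ h : H, (∏ j, corr (ψ j) ((h : ∀ j, G j) j) - ∏ j, mean (ψ j) ^ 2)) / Fintype.card H := by
    have e1 := mean_cosetAvg H ψ
    have e2 := second_moment H ψ
    have e3 : mean (fun b => (cosetAvg H ψ b - μ) ^ 2) =
        mean (fun b => cosetAvg H ψ b ^ 2) - 2 * μ * mean (cosetAvg H ψ) + μ ^ 2 := by
      unfold mean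
      simp only [sub_sq]
      rw [sum_add_distrib, sum_sub_distrib, sum_const, card_univ, nsmul_eq_mul, ← sum_mul, ← mul_sum]
      field_simp
    rw [e3, e1, e2, ← hμ, sum_sub_distrib, sum_const, card_univ, nsmul_eq_mul, sub_div,
      mul_div_cancel_left₀ _ hH0.ne', prod_pow, ← hμ]
    ring
  have h2 : mean (fun b => (cosetAvg H ψ b - μ) ^ 2) ≤ n * (I * (ε * B)) * (B ^ 2) ^ n := by
    rw [h1]
    have hB2 : 1 ≤ B ^ 2 := one_le_pow₀ hB
    calc (∑ h : H, (∏ j, corr (ψ j) ((h : ∀ j, G j) j) - ∏ j, mean (ψ j) ^ 2)) / Fintype.card H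
        ≤ (∑ h : H, (∑ j, |corr (ψ j) ((h : ∀ j, G j) j) - mean (ψ j) ^ 2|) * (B ^ 2) ^ n) /
            Fintype.card H := by
          refine div_le_div_of_nonneg_right (sum_le_sum fun h _ => ?_) hH0.le
          refine (le_abs_self _).trans (prod_diff _ _ (B ^ 2) hB2
            (fun j => abs_corr_le j _ B (hψ j) _) fun j => ?_)
          rw [abs_of_nonneg (sq_nonneg _), ← sq_abs]
          exact pow_le_pow_left₀ (abs_nonneg _) (abs_mean_le j _ B (hψ j)) 2
      _ = (∑ j, (∑ h : H, |corr (ψ j) ((h : ∀ j, G j) j) - mean (ψ j) ^ 2|) / Fintype.card H) *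
            (B ^ 2) ^ n := by
          rw [← sum_mul, sum_comm, mul_div_right_comm, sum_div]
      _ ≤ (∑ _j : Fin n, (I : ℝ) * (ε * B)) * (B ^ 2) ^ n := by
          refine mul_le_mul_of_nonneg_right (sum_le_sum fun j _ => ?_) (by positivity)
          refine (sum_coord_le H j I (hI j) (fun c => |corr (ψ j) c - mean (ψ j) ^ 2|)
            (fun _ => abs_nonneg _)).trans ?_
          refine mul_le_mul_of_nonneg_left ?_ (Nat.cast_nonneg _)
          exact corr_estimate (ψ j) ε B hε (by linarith) (hψ j) (h j)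
      _ = _ := by rw [sum_const, card_univ, Fintype.card_fin, nsmul_eq_mul]
  refine Real.le_sqrt_of_sq_le (le_trans ?_ h2)
  unfold mean
  have := sq_sum_le_card_mul_sum_sq (s := (univ : Finset (∀ j, G j)))
    (f := fun b => |cosetAvg H ψ b - μ|)
  simp only [sq_abs] at this
  rw [card_univ] at this
  rw [div_pow, div_le_div_iff₀ (by positivity) hA0]
  nlinarith

end Product

section Contraction

theorem orbitAverage_eq {𝒢 P : Type} [Group 𝒢] [MulAction 𝒢 P] [Finite P] (ℱ : Subgroup 𝒢) (x : P)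
    (Ψ : P → ℝ) : orbitAverage ℱ x Ψ =
      (∑ y ∈ (Set.toFinite (MulAction.orbit ℱ x)).toFinset, Ψ y) /
        (Set.toFinite (MulAction.orbit ℱ x)).toFinset.card := by
  unfold orbitAverage
  rw [finsum_mem_eq_finite_toFinset_sum _ (Set.toFinite _), Nat.card_coe_set_eq,
    Set.ncard_eq_toFinset_card _ (Set.toFinite _)]

/-- Averages over orbits are averages of averages over parts of orbits. -/
theorem l1_orbit {𝒢 P A : Type} [Group 𝒢] [MulAction 𝒢 P] [Fintype P] (ℱ : Subgroup 𝒢)
    (H : Finset A) (hne : H.Nonempty) (t : A → P → P)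
    (hH : ∀ h ∈ H, ∃ g ∈ ℱ, ∀ y : P, g • y = t h y) (Ψ : P → ℝ) (c : ℝ) :
    ∑ x, |orbitAverage ℱ x Ψ - c| ≤ ∑ x, |(∑ h ∈ H, Ψ (t h x)) / H.card - c| := by
  classical
  let O : P → Finset P := fun x => (Set.toFinite (MulAction.orbit ℱ x)).toFinset
  have hmem : ∀ x y, y ∈ O x ↔ y ∈ MulAction.orbit ℱ x := fun x y => Set.Finite.mem_toFinset _
  have hsymm : ∀ x y, y ∈ O x ↔ x ∈ O y := fun x y => by
    rw [hmem, hmem]; exact MulAction.mem_orbit_symm
  have heq : ∀ x y, y ∈ O x → O x = O y := fun x y h => by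
    ext z
    rw [hmem, hmem, MulAction.orbit_eq_iff.2 ((hmem x y).1 h)]
  have hOne : ∀ x, (O x).Nonempty := fun x => ⟨x, (hmem x x).2 (MulAction.mem_orbit_self x)⟩
  have hO0 : ∀ x, (0 : ℝ) < (O x).card := fun x => by exact_mod_cast (hOne x).card_pos
  have hH0 : (H.card : ℝ) ≠ 0 := by exact_mod_cast hne.card_pos.ne'
  set E : P → ℝ := fun x => (∑ h ∈ H, Ψ (t h x)) / H.card with hE
  have hS : ∀ x, ∀ h ∈ H, ∑ y ∈ O x, Ψ (t h y) = ∑ y ∈ O x, Ψ y := by
    intro x a ha
    obtain ⟨g, hg, hgy⟩ := hH a ha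
    refine sum_bij' (fun y _ => g • y) (fun y _ => g⁻¹ • y) ?_ ?_ ?_ ?_ ?_
    · intro y hy
      rw [hmem] at hy ⊢
      obtain ⟨k, rfl⟩ := hy
      exact ⟨⟨g, hg⟩ * k, mul_smul _ _ _⟩
    · intro y hy
      rw [hmem] at hy ⊢
      obtain ⟨k, rfl⟩ := hy
      exact ⟨⟨g⁻¹, inv_mem hg⟩ * k, mul_smul _ _ _⟩
    · intro y _
      exact inv_smul_smul _ _
    · intro y _
      exact smul_inv_smul _ _
    · intro y _
      rw [hgy]
  have e1 : ∀ x, orbitAverage ℱ x Ψ - c = (∑ y ∈ O x, (E y - c)) / (O x).card := by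
    intro x
    have e : ∑ y ∈ O x, E y = ∑ y ∈ O x, Ψ y := by
      simp only [hE]
      rw [← sum_div, sum_comm, sum_congr rfl (hS x), sum_const, nsmul_eq_mul, mul_comm,
        mul_div_assoc, div_self hH0, mul_one]
    rw [orbitAverage_eq, sum_sub_distrib, e, sum_const, nsmul_eq_mul, sub_div,
      mul_div_cancel_left₀ _ (hO0 x).ne']
  calc ∑ x, |orbitAverage ℱ x Ψ - c| ≤ ∑ x, ∑ y ∈ O x, |E y - c| / (O x).card := by
        refine sum_le_sum fun x _ => ?_
        rw [e1, abs_div, abs_of_pos (hO0 x), ← sum_div]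
        exact div_le_div_of_nonneg_right (abs_sum_le_sum_abs _ _) (hO0 x).le
    _ = ∑ x, ∑ y, if y ∈ O x then |E y - c| / (O x).card else 0 := by
        refine sum_congr rfl fun x _ => ?_
        rw [← sum_filter, filter_mem_eq_inter, univ_inter]
    _ = ∑ y, ∑ x, if x ∈ O y then |E y - c| / (O y).card else 0 := by
        rw [sum_comm]
        refine sum_congr rfl fun y _ => sum_congr rfl fun x _ => ?_
        by_cases h : y ∈ O x
        · rw [if_pos h, if_pos ((hsymm x y).1 h), heq x y h]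
        · rw [if_neg h, if_neg (fun h' => h ((hsymm x y).2 h'))]
    _ = ∑ y, |E y - c| := by
        refine sum_congr rfl fun y _ => ?_
        rw [← sum_filter, filter_mem_eq_inter, univ_inter, sum_const, nsmul_eq_mul,
          mul_div_cancel₀ _ (hO0 y).ne']

end Contraction

section Image

variable {𝒢 : Type} [Group 𝒢] {n : ℕ} {G : Fin n → Type} [∀ j, AddCommGroup (G j)]

/-- The image of a subgroup on which the maps `a j` are homomorphisms. -/
def image {K : Fin n → Subgroup 𝒢} {a : ∀ j, 𝒢 → G j}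
    (hmul : ∀ j, ∀ g ∈ K j, ∀ h ∈ K j, a j (g * h) = a j g + a j h)
    (ℱ : Subgroup 𝒢) : AddSubgroup (∀ j, G j) where
  carrier := {h | ∃ g ∈ ℱ ⊓ ⨅ j, K j, ∀ j, a j g = h j}
  zero_mem' := by
    refine ⟨1, one_mem _, fun j => ?_⟩
    have := hmul j 1 (one_mem _) 1 (one_mem _)
    rw [mul_one] at this
    exact left_eq_add.1 this
  add_mem' := by
    rintro x y ⟨g, hg, hgx⟩ ⟨h, hh, hhy⟩
    refine ⟨g * h, mul_mem hg hh, fun j => ?_⟩
    rw [hmul j g ((Subgroup.mem_iInf.1 hg.2) j) h ((Subgroup.mem_iInf.1 hh.2) j), hgx, hhy]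
    rfl
  neg_mem' := by
    rintro x ⟨g, hg, hgx⟩
    refine ⟨g⁻¹, inv_mem hg, fun j => ?_⟩
    have hgj := (Subgroup.mem_iInf.1 hg.2) j
    have h1 := hmul j g hgj g⁻¹ (inv_mem hgj)
    have h0 := hmul j 1 (one_mem _) 1 (one_mem _)
    rw [mul_one] at h0
    rw [mul_inv_cancel, left_eq_add.1 h0, hgx] at h1
    exact (neg_eq_of_add_eq_zero_right h1.symm).symm

theorem card_le_index [∀ j, Fintype (G j)] [∀ j, DecidableEq (G j)]
    {K : Fin n → Subgroup 𝒢} {a : ∀ j, 𝒢 → G j}
    (hmul : ∀ j, ∀ g ∈ K j, ∀ h ∈ K j, a j (g * h) = a j g + a j h)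
    (hsurj : ∀ j c, ∃ g ∈ K j, a j g = c)
    (ℱ : Subgroup 𝒢) [Fintype (image hmul ℱ)] (hfi : (ℱ ⊓ ⨅ j, K j).FiniteIndex) (j : Fin n) :
    Fintype.card (G j) ≤ (ℱ ⊓ ⨅ j, K j).index *
      ((univ : Finset (image hmul ℱ)).image
        (fun h : image hmul ℱ => (h : ∀ j, G j) j)).card := by
  classical
  set N := ℱ ⊓ ⨅ j, K j with hN
  have : Fintype (𝒢 ⧸ N) := N.fintypeQuotientOfFiniteIndex
  set U := (univ : Finset (image hmul ℱ)).image
        (fun h : image hmul ℱ => (h : ∀ j, G j) j) with hU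
  choose g hgK hg using hsurj j
  have hinv : ∀ c, a j (g c)⁻¹ = -c := by
    intro c
    have h1 := hmul j (g c) (hgK c) (g c)⁻¹ (inv_mem (hgK c))
    have h0 := hmul j 1 (one_mem _) 1 (one_mem _)
    rw [mul_one] at h0
    rw [mul_inv_cancel, left_eq_add.1 h0, hg] at h1
    exact (neg_eq_of_add_eq_zero_right h1.symm).symm
  have h1 := card_le_mul_card_image (f := fun c => (QuotientGroup.mk (g c) : 𝒢 ⧸ N))
    (univ : Finset (G j)) U.card (by
      intro w hw
      rw [mem_image] at hw
      obtain ⟨c₀, -, rfl⟩ := hw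
      apply card_le_card_of_injOn (fun c => c - c₀)
      · intro c hc
        rw [mem_coe, mem_filter] at hc
        rw [mem_coe, hU, mem_image]
        have h2 : (g c)⁻¹ * g c₀ ∈ N := QuotientGroup.eq.1 hc.2
        have h3 : (g c₀)⁻¹ * g c ∈ N := by
          have := inv_mem h2
          rwa [mul_inv_rev, inv_inv] at this
        refine ⟨⟨fun i => a i ((g c₀)⁻¹ * g c), ⟨_, h3, fun _ => rfl⟩⟩, mem_univ _, ?_⟩
        change a j ((g c₀)⁻¹ * g c) = c - c₀
        rw [hmul j _ (inv_mem (hgK c₀)) _ (hgK c), hinv, hg]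
        abel
      · intro c _ c' _ h
        exact sub_left_injective h)
  rw [card_univ] at h1
  calc Fintype.card (G j) ≤ U.card * _ := h1
    _ ≤ U.card * N.index := by
        refine Nat.mul_le_mul_left _ ?_
        rw [Subgroup.index_eq_card, Nat.card_eq_fintype_card]
        exact card_le_univ _
    _ = N.index * U.card := mul_comm _ _

end Image

section Mean

variable {𝒢 : Type} [Group 𝒢] {n : ℕ} {X : Fin n → Type} [∀ j, TopologicalSpace (X j)]
  [∀ j, CompactSpace (X j)] [∀ j, MeasurableSpace (X j)]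

omit [Group 𝒢] in
theorem mean_abs_sub_le {A : Type} [Fintype A] [Nonempty A] (f : A → ℝ) (c d : ℝ) :
    mean (fun b => |f b - c|) ≤ mean (fun b => |f b - d|) + |d - c| := by
  have hA0 : (0 : ℝ) < Fintype.card A := by exact_mod_cast Fintype.card_pos
  unfold mean
  rw [div_add' _ _ _ hA0.ne']
  refine div_le_div_of_nonneg_right ?_ hA0.le
  calc ∑ b, |f b - c| ≤ ∑ b, (|f b - d| + |d - c|) := sum_le_sum fun b _ => abs_sub_le _ _ _
    _ = ∑ b, |f b - d| + |d - c| * Fintype.card A := by
        rw [sum_add_distrib, sum_const, card_univ, nsmul_eq_mul, mul_comm |d - c|]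

omit [∀ j, CompactSpace (X j)] in
/-- The mean error for products. -/
theorem mean_error (ℱ : Subgroup 𝒢) [ℱ.FiniteIndex] (m : ∀ j, Measure (X j))
    (S : ∀ j, SpecialSpace 𝒢 (X j)) (φ : ∀ j, C(X j, ℝ)) (B : ℝ) (hB : 1 ≤ B)
    (hφ : ∀ j t, |φ j t| ≤ B) (hm : ∀ j, |∫ t, φ j t ∂(m j)| ≤ B)
    (D : ∀ j, (S j).Kind) (ε : ℝ) (hε : 0 ≤ ε)
    [∀ j, DecidableEq (AddChar ((S j).Cl (D j)) ℂ)]
    (h : ∀ j (x : (S j).P (D j)) (χ : AddChar ((S j).Cl (D j)) ℂ),
      ‖(∑ c, (φ j ((S j).pt (D j) (c +ᵥ x)) : ℂ) * χ c) / Fintype.card ((S j).Cl (D j)) -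
        (if χ = 0 then ((∫ t, φ j t ∂(m j) : ℝ) : ℂ) else 0)‖ ≤ ε)
    [Fintype (∀ j, (S j).P (D j))] :
    (∑ x : ∀ j, (S j).P (D j), |orbitAverage ℱ x (fun y => ∏ j, φ j ((S j).pt (D j) (y j))) -
      ∏ j, ∫ t, φ j t ∂(m j)|) / Fintype.card (∀ j, (S j).P (D j)) ≤
      Real.sqrt (n * ((ℱ.index * ∏ j, (S j).bound : ℕ) * (ε * B)) * (B ^ 2) ^ n) +
        n * ε * B ^ n := by
  classical
  let K : Fin n → Subgroup 𝒢 := fun j => (S j).K (D j)
  let a : ∀ j, 𝒢 → (S j).Cl (D j) := fun j => (S j).artin (D j)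
  have hmul : ∀ j, ∀ g ∈ K j, ∀ h ∈ K j, a j (g * h) = a j g + a j h :=
    fun j => (S j).artin_mul (D j)
  have : Fintype (image hmul ℱ) := Fintype.ofFinite _
  have hKi : (⨅ j, K j).FiniteIndex := ⟨Subgroup.index_iInf_ne_zero fun j =>
    ((S j).finiteIndex (D j)).index_ne_zero⟩
  have hfi : (ℱ ⊓ ⨅ j, K j).FiniteIndex := inferInstance
  set R := Real.sqrt (n * ((ℱ.index * ∏ j, (S j).bound : ℕ) * (ε * B)) * (B ^ 2) ^ n) +
        n * ε * B ^ n with hR
  set c := ∏ j, ∫ t, φ j t ∂(m j) with hc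
  have hind : (ℱ ⊓ ⨅ j, K j).index ≤ ℱ.index * ∏ j, (S j).bound :=
    Subgroup.index_inf_le.trans (Nat.mul_le_mul_left _
      ((Subgroup.index_iInf_le _).trans (prod_le_prod' fun j _ => (S j).index_le (D j))))
  set F : (∀ j, (S j).P (D j)) → ℝ := fun x =>
    |(∑ h ∈ (univ : Finset (image hmul ℱ)), ∏ j, φ j ((S j).pt (D j)
      ((h : ∀ j, (S j).Cl (D j)) j +ᵥ x j))) / (univ : Finset (image hmul ℱ)).card - c| with hF
  have h1 := l1_orbit (P := ∀ j, (S j).P (D j)) ℱ (univ : Finset (image hmul ℱ)) univ_nonempty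
    (fun h y j => (h : ∀ j, (S j).Cl (D j)) j +ᵥ y j)
    (by
      rintro ⟨h, g, hg, hgh⟩ _
      refine ⟨g, hg.1, fun y => ?_⟩
      funext j
      have := (S j).reciprocity (D j) g ((Subgroup.mem_iInf.1 hg.2) j) (y j)
      rw [Pi.smul_apply, this]
      exact congrArg (fun c => c +ᵥ y j) (hgh j))
    (fun y => ∏ j, φ j ((S j).pt (D j) (y j))) c
  have hbij : ∀ b : ∀ j, (S j).Cl (D j), ∑ x : ∀ j, (S j).P (D j), F (fun j => b j +ᵥ x j) =
      ∑ x, F x := by
    intro b
    refine Fintype.sum_bijective (fun (x : ∀ j, (S j).P (D j)) j => b j +ᵥ x j) ?_ _ _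
      fun _ => rfl
    refine Function.bijective_iff_has_inverse.2 ⟨fun x j => (-b j) +ᵥ x j, fun x => ?_, fun x => ?_⟩
    · funext j
      exact neg_vadd_vadd _ _
    · funext j
      exact vadd_neg_vadd _ _
  have hA0 : (0 : ℝ) < Fintype.card (∀ j, (S j).Cl (D j)) := by exact_mod_cast Fintype.card_pos
  have h2 : ∑ x, F x = ∑ x : ∀ j, (S j).P (D j), mean (fun b : ∀ j, (S j).Cl (D j) => F (fun j => b j +ᵥ x j)) := by
    unfold mean
    rw [← sum_div, sum_comm, sum_congr rfl (fun b _ => hbij b), sum_const, card_univ, nsmul_eq_mul,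
      mul_div_cancel_left₀ _ hA0.ne']
  have h3 : ∀ x : ∀ j, (S j).P (D j), mean (fun b : ∀ j, (S j).Cl (D j) => F (fun j => b j +ᵥ x j)) ≤ R := by
    intro x
    set ψ : ∀ j, (S j).Cl (D j) → ℝ := fun j g => φ j ((S j).pt (D j) (g +ᵥ x j)) with hψ
    have hFb : ∀ b : ∀ j, (S j).Cl (D j), F (fun j => b j +ᵥ x j) =
        |cosetAvg (image hmul ℱ) ψ b - c| := by
      intro b
      simp only [hF, cosetAvg, hψ, card_univ]
      congr 3
      refine sum_congr rfl fun h _ => prod_congr rfl fun j _ => ?_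
      rw [vadd_vadd]
    have hmean : ∀ j, |mean (ψ j) - ∫ t, φ j t ∂(m j)| ≤ ε := by
      intro j
      have := h j (x j) 0
      rw [if_pos rfl] at this
      rw [← Real.norm_eq_abs, ← Complex.norm_real]
      refine le_trans (le_of_eq ?_) this
      congr 1
      unfold mean
      push_cast
      simp [hψ]
    have hl1 := l1_estimate (image hmul ℱ) ψ ε B (ℱ.index * ∏ j, (S j).bound) hε hB
      (fun j g => hφ j _)
      (fun j => (card_le_index hmul (fun j => (S j).artin_surj (D j)) ℱ hfi j).trans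
        (Nat.mul_le_mul_right _ hind))
      (fun j χ hχ => by
        have := h j (x j) χ
        rwa [if_neg hχ, sub_zero] at this)
    have hpd : |∏ j, mean (ψ j) - c| ≤ n * ε * B ^ n := by
      refine (prod_diff (fun j => mean (ψ j)) (fun j => ∫ t, φ j t ∂(m j)) B hB
        (fun j => abs_mean_le (G := fun j => (S j).Cl (D j)) j (ψ j) B fun g => hφ j _) hm).trans ?_
      refine mul_le_mul_of_nonneg_right ?_ (by positivity)
      calc ∑ j, |mean (ψ j) - ∫ t, φ j t ∂(m j)| ≤ ∑ _j : Fin n, ε := sum_le_sum fun j _ => hmean j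
        _ = n * ε := by rw [sum_const, card_univ, Fintype.card_fin, nsmul_eq_mul]
    calc mean (fun b : ∀ j, (S j).Cl (D j) => F (fun j => b j +ᵥ x j))
        = mean (fun b => |cosetAvg (image hmul ℱ) ψ b - c|) := by simp only [hFb]
      _ ≤ mean (fun b => |cosetAvg (image hmul ℱ) ψ b - ∏ j, mean (ψ j)|) +
            |∏ j, mean (ψ j) - c| := by
          exact mean_abs_sub_le _ _ _
      _ ≤ R := add_le_add hl1 hpd
  have hP0 : (0 : ℝ) < Fintype.card (∀ j, (S j).P (D j)) := by exact_mod_cast Fintype.card_pos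
  rw [div_le_iff₀ hP0]
  calc _ ≤ ∑ x, F x := h1
    _ = ∑ x : ∀ j, (S j).P (D j), mean (fun b : ∀ j, (S j).Cl (D j) => F (fun j => b j +ᵥ x j)) := h2
    _ ≤ ∑ _x : ∀ j, (S j).P (D j), R := sum_le_sum fun x _ => h3 x
    _ = R * Fintype.card (∀ j, (S j).P (D j)) := by
        rw [sum_const, card_univ, nsmul_eq_mul, mul_comm]

end Mean
section Convergence

variable {Z : Type} [TopologicalSpace Z] [CompactSpace Z]

theorem closed_conv (L : ℕ → C(Z, ℝ) →ₗ[ℝ] ℝ) (I : C(Z, ℝ) →ₗ[ℝ] ℝ)
    (hL : ∀ k f, |L k f| ≤ ‖f‖) (hI : ∀ f, |I f| ≤ ‖f‖) :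
    IsClosed {f : C(Z, ℝ) | Tendsto (fun k => L k f) atTop (𝓝 (I f))} := by
  rw [← closure_subset_iff_isClosed]
  intro f hf
  change Tendsto (fun k => L k f) atTop (𝓝 (I f))
  rw [Metric.tendsto_atTop]
  intro ε hε
  obtain ⟨g, hg, hfg⟩ := Metric.mem_closure_iff.1 hf (ε / 3) (by positivity)
  obtain ⟨K, hK⟩ := Metric.tendsto_atTop.1 hg (ε / 3) (by positivity)
  refine ⟨K, fun k hk => ?_⟩
  have h1 := hK k hk
  rw [Real.dist_eq] at h1 ⊢
  rw [dist_eq_norm] at hfg
  have h2 : |L k (f - g)| ≤ ‖f - g‖ := hL k _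
  have h3 : |I (f - g)| ≤ ‖f - g‖ := hI _
  rw [map_sub] at h2 h3
  have h4 : L k f - I f = (L k f - L k g) + (L k g - I g) - (I f - I g) := by ring
  rw [h4]
  calc |(L k f - L k g) + (L k g - I g) - (I f - I g)|
      ≤ |L k f - L k g| + |L k g - I g| + |I f - I g| := by
        refine (abs_sub _ _).trans (add_le_add (abs_add_le _ _) le_rfl)
    _ < ε := by linarith

/-- Products of functions of the coordinates. -/
def prodFn {n : ℕ} {X : Fin n → Type} [∀ j, TopologicalSpace (X j)]
    (g : ∀ j, C(X j, ℝ)) : C((∀ j, X j), ℝ) :=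
  ∏ j, (g j).comp ⟨fun z => z j, continuous_apply j⟩

theorem prodFn_apply {n : ℕ} {X : Fin n → Type} [∀ j, TopologicalSpace (X j)]
    (g : ∀ j, C(X j, ℝ)) (z : ∀ j, X j) : prodFn g z = ∏ j, g j (z j) := by
  simp [prodFn, ContinuousMap.prod_apply]

theorem prodFn_continuous {n : ℕ} {X : Fin n → Type} [∀ j, TopologicalSpace (X j)]
    [∀ j, CompactSpace (X j)] :
    Continuous (prodFn : (∀ j, C(X j, ℝ)) → C((∀ j, X j), ℝ)) := by
  unfold prodFn
  refine continuous_finsetProd _ fun j _ => ?_
  exact (ContinuousMap.continuous_precomp _).comp (continuous_apply j)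

theorem dense_span {n : ℕ} {X : Fin n → Type} [∀ j, TopologicalSpace (X j)]
    [∀ j, CompactSpace (X j)] [∀ j, T2Space (X j)] :
    Dense ((Submodule.span ℝ (Set.range (prodFn : (∀ j, C(X j, ℝ)) → C((∀ j, X j), ℝ))) :
      Submodule ℝ C((∀ j, X j), ℝ)) : Set C((∀ j, X j), ℝ)) := by
  classical
  let Mo : Submonoid C((∀ j, X j), ℝ) :=
    { carrier := Set.range prodFn
      one_mem' := ⟨1, by ext z; simp [prodFn_apply]⟩
      mul_mem' := by
        rintro _ _ ⟨g, rfl⟩ ⟨h, rfl⟩
        refine ⟨g * h, ?_⟩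
        ext z
        simp [prodFn_apply, prod_mul_distrib] }
  have h1 : (Algebra.adjoin ℝ (Mo : Set C((∀ j, X j), ℝ))).toSubmodule =
      Submodule.span ℝ (Mo : Set C((∀ j, X j), ℝ)) := by
    rw [Algebra.adjoin_eq_span, Submonoid.closure_eq]
  have hsep : (Algebra.adjoin ℝ (Mo : Set C((∀ j, X j), ℝ))).SeparatesPoints := by
    intro z z' hz
    obtain ⟨j, hj⟩ : ∃ j, z j ≠ z' j := Function.ne_iff.1 hz
    obtain ⟨g, hg0, hg1, -⟩ := exists_continuous_zero_one_of_isClosed
      (isClosed_singleton (x := z j)) (isClosed_singleton (x := z' j))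
      (by rw [Set.disjoint_singleton]; exact hj)
    refine ⟨_, ⟨prodFn (Function.update 1 j g), Algebra.subset_adjoin ⟨_, rfl⟩, rfl⟩, ?_⟩
    have e : ∀ w : ∀ j, X j, prodFn (Function.update (1 : ∀ j, C(X j, ℝ)) j g) w = g (w j) := by
      intro w
      rw [prodFn_apply, prod_eq_single j]
      · rw [Function.update_self]
      · intro i _ hi
        rw [Function.update_of_ne hi]
        rfl
      · intro h
        exact absurd (mem_univ _) h
    change prodFn (Function.update (1 : ∀ j, C(X j, ℝ)) j g) z ≠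
      prodFn (Function.update (1 : ∀ j, C(X j, ℝ)) j g) z'
    rw [e, e, hg0 rfl, hg1 rfl]
    simp
  have h2 := ContinuousMap.subalgebra_topologicalClosure_eq_top_of_separatesPoints _ hsep
  have h3 : (Submodule.span ℝ (Set.range (prodFn : (∀ j, C(X j, ℝ)) → C((∀ j, X j), ℝ))) :
      Set C((∀ j, X j), ℝ)) = (Algebra.adjoin ℝ (Mo : Set C((∀ j, X j), ℝ)) : Set _) := by
    rw [← Subalgebra.coe_toSubmodule, h1]
    rfl
  rw [h3, dense_iff_closure_eq, ← Subalgebra.topologicalClosure_coe, h2]
  rfl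

end Convergence

section Sets

variable {Z : Type} [TopologicalSpace Z] [CompactSpace Z]

theorem closed_err (b : ℕ → C(Z, ℝ) → ℝ) (h0 : ∀ k f, 0 ≤ b k f)
    (h : ∀ k f g, b k f ≤ b k g + 2 * ‖f - g‖) :
    IsClosed {f : C(Z, ℝ) | Tendsto (fun k => b k f) atTop (𝓝 0)} := by
  rw [← closure_subset_iff_isClosed]
  intro f hf
  change Tendsto (fun k => b k f) atTop (𝓝 0)
  rw [Metric.tendsto_atTop]
  intro ε hε
  obtain ⟨g, hg, hfg⟩ := Metric.mem_closure_iff.1 hf (ε / 4) (by positivity)
  obtain ⟨K, hK⟩ := Metric.tendsto_atTop.1 hg (ε / 4) (by positivity)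
  refine ⟨K, fun k hk => ?_⟩
  have h1 := hK k hk
  rw [Real.dist_eq, sub_zero, abs_of_nonneg (h0 _ _)] at h1 ⊢
  rw [dist_eq_norm] at hfg
  have := h k f g
  linarith

/-- From convergence in mean to sets of full density. -/
theorem exists_sets [SecondCountableTopology Z] [T2Space Z] (P : ℕ → Type) [∀ k, Fintype (P k)]
    [∀ k, Nonempty (P k)] (a : ∀ k, P k → C(Z, ℝ) →ₗ[ℝ] ℝ) (I : C(Z, ℝ) →ₗ[ℝ] ℝ)
    (ha : ∀ k x f, |a k x f| ≤ ‖f‖) (hI : ∀ f, |I f| ≤ ‖f‖)
    (hmean : ∀ f, Tendsto (fun k => (∑ x, |a k x f - I f|) / Fintype.card (P k)) atTop (𝓝 0)) :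
    ∃ E : ∀ k, Set (P k),
      Tendsto (fun k => ((E k).ncard : ℝ) / Nat.card (P k)) atTop (𝓝 1) ∧
      ∀ x : ∀ k, P k, (∀ᶠ k in atTop, x k ∈ E k) →
        ∀ f, Tendsto (fun k => a k (x k) f) atTop (𝓝 (I f)) := by
  classical
  set u : ℕ → C(Z, ℝ) := TopologicalSpace.denseSeq C(Z, ℝ) with hu
  set d : ∀ k, P k → ℕ → ℝ := fun k x i => min 1 |a k x (u i) - I (u i)| with hd
  have hd0 : ∀ k x i, 0 ≤ d k x i := fun k x i => le_min zero_le_one (abs_nonneg _)
  have hd1 : ∀ k x i, d k x i ≤ 1 := fun k x i => min_le_left _ _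
  have hgeo : Summable (fun i : ℕ => (1 / 2 : ℝ) ^ i) := summable_geometric_two
  have hsum : ∀ k x, Summable (fun i => (1 / 2 : ℝ) ^ i * d k x i) := fun k x =>
    Summable.of_nonneg_of_le (fun i => mul_nonneg (by positivity) (hd0 _ _ _))
      (fun i => mul_le_of_le_one_right (by positivity) (hd1 _ _ _)) hgeo
  set β : ∀ k, P k → ℝ := fun k x => ∑' i, (1 / 2 : ℝ) ^ i * d k x i with hβ
  have hβ0 : ∀ k x, 0 ≤ β k x := fun k x => tsum_nonneg fun i => mul_nonneg (by positivity) (hd0 _ _ _)
  have hle : ∀ k x i, (1 / 2 : ℝ) ^ i * d k x i ≤ β k x := fun k x i =>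
    (hsum k x).le_tsum i fun j _ => mul_nonneg (by positivity) (hd0 _ _ _)
  set mb : ℕ → ℝ := fun k => (∑ x, β k x) / Fintype.card (P k) with hmb
  have hc0 : ∀ k, (0 : ℝ) < Fintype.card (P k) := fun k => by exact_mod_cast Fintype.card_pos
  have hmb0 : ∀ k, 0 ≤ mb k := fun k => div_nonneg (sum_nonneg fun x _ => hβ0 k x) (hc0 k).le
  have hmbt : Tendsto mb atTop (𝓝 0) := by
    have e : ∀ k, mb k = ∑' i, (1 / 2 : ℝ) ^ i * ((∑ x, d k x i) / Fintype.card (P k)) := by
      intro k
      simp only [hmb, hβ]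
      rw [← Summable.tsum_finsetSum (fun x _ => hsum k x), ← tsum_div_const]
      refine tsum_congr fun i => ?_
      rw [← mul_sum, mul_div_assoc]
    have h0 : (0 : ℝ) = ∑' i : ℕ, (0 : ℝ) := by simp
    rw [h0]
    simp only [funext e]
    refine tendsto_tsum_of_dominated_convergence (bound := fun i => (1 / 2 : ℝ) ^ i) hgeo ?_ ?_
    · intro i
      have h1 : Tendsto (fun k => (∑ x, d k x i) / Fintype.card (P k)) atTop (𝓝 0) := by
        refine squeeze_zero (fun k => div_nonneg (sum_nonneg fun x _ => hd0 k x i) (hc0 k).le)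
          (fun k => ?_) (hmean (u i))
        exact div_le_div_of_nonneg_right (sum_le_sum fun x _ => min_le_right _ _) (hc0 k).le
      simpa using h1.const_mul ((1 / 2 : ℝ) ^ i)
    · refine Eventually.of_forall fun k i => ?_
      rw [Real.norm_eq_abs, abs_of_nonneg (mul_nonneg (by positivity)
        (div_nonneg (sum_nonneg fun x _ => hd0 k x i) (hc0 k).le))]
      refine mul_le_of_le_one_right (by positivity) ?_
      rw [div_le_one (hc0 k)]
      calc ∑ x, d k x i ≤ ∑ _x : P k, (1 : ℝ) := sum_le_sum fun x _ => hd1 k x i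
        _ = Fintype.card (P k) := by simp
  refine ⟨fun k => {x | β k x ≤ Real.sqrt (mb k)}, ?_, ?_⟩
  · have hbad : ∀ k, (((univ : Finset (P k)).filter (fun x => ¬ β k x ≤ Real.sqrt (mb k))).card : ℝ) /
        Fintype.card (P k) ≤ Real.sqrt (mb k) := by
      intro k
      rw [div_le_iff₀ (hc0 k)]
      have h1 : (((univ : Finset (P k)).filter (fun x => ¬ β k x ≤ Real.sqrt (mb k))).card : ℝ) *
          Real.sqrt (mb k) ≤ mb k * Fintype.card (P k) := by
        have e : mb k * Fintype.card (P k) = ∑ x, β k x := by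
          simp only [hmb]
          rw [div_mul_cancel₀ _ (hc0 k).ne']
        rw [e, ← nsmul_eq_mul, ← sum_const]
        calc ∑ _x ∈ (univ : Finset (P k)).filter (fun x => ¬ β k x ≤ Real.sqrt (mb k)),
              Real.sqrt (mb k)
            ≤ ∑ x ∈ (univ : Finset (P k)).filter (fun x => ¬ β k x ≤ Real.sqrt (mb k)), β k x :=
              sum_le_sum fun x hx => (not_le.1 (mem_filter.1 hx).2).le
          _ ≤ ∑ x, β k x := sum_le_sum_of_subset_of_nonneg (filter_subset _ _)
              fun x _ _ => hβ0 k x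
      rcases (Real.sqrt_nonneg (mb k)).eq_or_lt with h2 | h2
      · have hz : mb k = 0 := by
          have := Real.sqrt_eq_zero (hmb0 k)
          exact this.1 h2.symm
        have hall : ∀ x, β k x = 0 := by
          have hs : ∑ x, β k x = 0 := by
            have : mb k * Fintype.card (P k) = ∑ x, β k x := by
              simp only [hmb]
              rw [div_mul_cancel₀ _ (hc0 k).ne']
            rw [← this, hz, zero_mul]
          intro x
          exact (sum_eq_zero_iff_of_nonneg fun x _ => hβ0 k x).1 hs x (mem_univ x)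
        rw [filter_eq_empty_iff.2]
        · simp [← h2]
        · intro x _
          rw [not_not, hall x]
          exact Real.sqrt_nonneg _
      · have h3 : mb k = Real.sqrt (mb k) * Real.sqrt (mb k) := (Real.mul_self_sqrt (hmb0 k)).symm
        have h4 : (((univ : Finset (P k)).filter
            (fun x => ¬ β k x ≤ Real.sqrt (mb k))).card : ℝ) * Real.sqrt (mb k) ≤
            (Real.sqrt (mb k) * Fintype.card (P k)) * Real.sqrt (mb k) := by
          calc _ ≤ mb k * Fintype.card (P k) := h1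
            _ = _ := by nth_rewrite 1 [h3]; ring
        exact le_of_mul_le_mul_right h4 h2
    have hsq : Tendsto (fun k => 1 - Real.sqrt (mb k)) atTop (𝓝 1) := by
      have h1 : Tendsto (fun k => Real.sqrt (mb k)) atTop (𝓝 (Real.sqrt 0)) :=
        (Real.continuous_sqrt.tendsto 0).comp hmbt
      rw [Real.sqrt_zero] at h1
      simpa using h1.const_sub 1
    refine tendsto_of_tendsto_of_tendsto_of_le_of_le hsq tendsto_const_nhds (fun k => ?_)
      (fun k => ?_)
    · have h1 : ({x : P k | β k x ≤ Real.sqrt (mb k)}.ncard : ℝ) =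
          Fintype.card (P k) -
            ((univ : Finset (P k)).filter (fun x => ¬ β k x ≤ Real.sqrt (mb k))).card := by
        have h2 : {x : P k | β k x ≤ Real.sqrt (mb k)}.ncard =
            ((univ : Finset (P k)).filter (fun x => β k x ≤ Real.sqrt (mb k))).card := by
          rw [← Set.ncard_coe_finset]
          congr 1
          ext x
          simp
        have h3 := card_filter_add_card_filter_not (s := (univ : Finset (P k)))
          (fun x => β k x ≤ Real.sqrt (mb k))
        rw [card_univ] at h3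
        rw [h2, ← h3]
        push_cast
        ring
      change 1 - Real.sqrt (mb k) ≤ _
      rw [h1, Nat.card_eq_fintype_card, sub_div, div_self (hc0 k).ne']
      linarith [hbad k]
    · change _ ≤ (1 : ℝ)
      rw [Nat.card_eq_fintype_card, div_le_one (hc0 k)]
      have : {x : P k | β k x ≤ Real.sqrt (mb k)}.ncard ≤ Nat.card (P k) := by
        rw [← Set.ncard_univ]
        exact Set.ncard_le_ncard (Set.subset_univ _) (Set.toFinite _)
      rw [Nat.card_eq_fintype_card] at this
      exact_mod_cast this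
  · intro x hx
    have hsq : Tendsto (fun k => Real.sqrt (mb k)) atTop (𝓝 0) := by
      have h1 : Tendsto (fun k => Real.sqrt (mb k)) atTop (𝓝 (Real.sqrt 0)) :=
        (Real.continuous_sqrt.tendsto 0).comp hmbt
      rwa [Real.sqrt_zero] at h1
    have hβt : Tendsto (fun k => β k (x k)) atTop (𝓝 0) :=
      tendsto_of_tendsto_of_tendsto_of_le_of_le' tendsto_const_nhds hsq
        (Eventually.of_forall fun k => hβ0 k (x k)) (hx.mono fun k hk => hk)
    have hui : ∀ i, Tendsto (fun k => a k (x k) (u i)) atTop (𝓝 (I (u i))) := by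
      intro i
      have h1 : Tendsto (fun k => d k (x k) i) atTop (𝓝 0) := by
        have h2 : Tendsto (fun k => (2 : ℝ) ^ i * β k (x k)) atTop (𝓝 0) := by
          simpa using hβt.const_mul ((2 : ℝ) ^ i)
        refine squeeze_zero (fun k => hd0 k (x k) i) (fun k => ?_) h2
        have h3 := hle k (x k) i
        have h4 : (2 : ℝ) ^ i * ((1 / 2 : ℝ) ^ i * d k (x k) i) = d k (x k) i := by
          rw [← mul_assoc, ← mul_pow]
          norm_num
        calc d k (x k) i = (2 : ℝ) ^ i * ((1 / 2 : ℝ) ^ i * d k (x k) i) := h4.symm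
          _ ≤ _ := mul_le_mul_of_nonneg_left h3 (by positivity)
      rw [tendsto_iff_norm_sub_tendsto_zero]
      refine h1.congr' ?_
      filter_upwards [h1.eventually (gt_mem_nhds one_pos)] with k hk
      simp only [hd] at hk ⊢
      rw [Real.norm_eq_abs]
      rcases min_lt_iff.1 hk with h | h
      · exact absurd h (lt_irrefl _)
      · exact min_eq_right h.le
    have hcl := closed_conv (fun k => a k (x k)) I (fun k f => ha k (x k) f) hI
    intro f
    have hd' : Dense (Set.range u) := TopologicalSpace.denseRange_denseSeq _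
    exact (hcl.closure_subset_iff.2 (by rintro _ ⟨i, rfl⟩; exact hui i)) (hd' f)

end Sets

section Final

variable {𝒢 : Type} [Group 𝒢] {n : ℕ} {X : Fin n → Type} [∀ j, TopologicalSpace (X j)]
  [∀ j, CompactSpace (X j)] [∀ j, T2Space (X j)] [∀ j, SecondCountableTopology (X j)]
  [∀ j, MeasurableSpace (X j)] [∀ j, BorelSpace (X j)]

omit [∀ j, T2Space (X j)] in
theorem integrable_pi (m : ∀ j, Measure (X j)) [∀ j, IsProbabilityMeasure (m j)]
    (f : C((∀ j, X j), ℝ)) : Integrable (fun z => f z) (Measure.pi m) :=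
  (integrable_const ‖f‖).mono' f.continuous.measurable.aestronglyMeasurable
    (Eventually.of_forall fun z => f.norm_coe_le_norm z)

/-- **The Galois orbits of almost all special points in products of Shimura curves are
equidistributed.** Let `X_1, …, X_n` be compact Hausdorff second countable spaces with probability
measures `m_j` and structures `SpecialSpace` for which equidistribution with characters
(`TwistedEquidistribution`) holds, `ℱ` a subgroup of finite index (the Galois group of a number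
field), and let `D_k` be a sequence of `n`-tuples of orders whose sizes tend to infinity. Then:
1. for every continuous function `f` on `X_1 × … × X_n` the average, over all points
   `x = (x_1, …, x_n)` such that `x_j` has the order `D_{k,j}`, of the error
   `|average of f over the ℱ-orbit of x - ∫ f d(m_1 × … × m_n)|` tends to `0` as `k → ∞`;
2. there are sets `E_k` of such points, of relative density tending to `1`, such that for all
   sequences of points `x_k` lying in `E_k` for all large `k` the `ℱ`-orbits of the `x_k` are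
   equidistributed on `X_1 × … × X_n`. -/
theorem result (ℱ : Subgroup 𝒢) [ℱ.FiniteIndex] (m : ∀ j, Measure (X j))
    [∀ j, IsProbabilityMeasure (m j)] (S : ∀ j, SpecialSpace 𝒢 (X j))
    (hS : ∀ j, TwistedEquidistribution (S j) (m j)) (D : ℕ → ∀ j, (S j).Kind)
    (hD : ∀ j, Tendsto (fun k => (S j).size (D k j)) atTop atTop) :
    (∀ f : C((∀ j, X j), ℝ), Tendsto (fun k =>
      (∑ᶠ x : (∀ j, (S j).P (D k j)),
        |orbitAverage ℱ x (fun y => f (fun j => (S j).pt (D k j) (y j))) -
          ∫ z, f z ∂(Measure.pi m)|) / Nat.card (∀ j, (S j).P (D k j))) atTop (𝓝 0)) ∧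
    ∃ E : ∀ k, Set (∀ j, (S j).P (D k j)),
      Tendsto (fun k => ((E k).ncard : ℝ) / Nat.card (∀ j, (S j).P (D k j))) atTop (𝓝 1) ∧
      ∀ x : ∀ k j, (S j).P (D k j), (∀ᶠ k in atTop, x k ∈ E k) →
        ∀ f : C((∀ j, X j), ℝ), Tendsto
          (fun k => orbitAverage ℱ (x k) (fun y => f (fun j => (S j).pt (D k j) (y j))))
          atTop (𝓝 (∫ z, f z ∂(Measure.pi m))) := by
  classical
  let Q : ℕ → Type := fun k => ∀ j, (S j).P (D k j)
  have fQ : ∀ k, Fintype (Q k) := fun k => Fintype.ofFinite _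
  have nQ : ∀ k, Nonempty (Q k) := fun k => inferInstance
  -- the functionals
  let L : ∀ k, Q k → C((∀ j, X j), ℝ) →ₗ[ℝ] ℝ := fun k x =>
    { toFun := fun f => orbitAverage ℱ x (fun y => f (fun j => (S j).pt (D k j) (y j)))
      map_add' := by
        intro f g
        simp only [orbitAverage_eq, ContinuousMap.add_apply, sum_add_distrib, add_div]
      map_smul' := by
        intro c f
        simp only [orbitAverage_eq, ContinuousMap.smul_apply, smul_eq_mul, ← mul_sum,
          mul_div_assoc, RingHom.id_apply] }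
  let I : C((∀ j, X j), ℝ) →ₗ[ℝ] ℝ :=
    { toFun := fun f => ∫ z, f z ∂(Measure.pi m)
      map_add' := by
        intro f g
        exact integral_add (integrable_pi m f) (integrable_pi m g)
      map_smul' := by
        intro c f
        exact integral_const_mul c _ }
  have hL : ∀ k x f, |L k x f| ≤ ‖f‖ := by
    intro k x f
    change |orbitAverage ℱ x (fun y => f (fun j => (S j).pt (D k j) (y j)))| ≤ ‖f‖
    rw [orbitAverage_eq]
    set O := (Set.toFinite (MulAction.orbit ℱ x)).toFinset with hO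
    have hOne : O.Nonempty := ⟨x, (Set.Finite.mem_toFinset _).2 (MulAction.mem_orbit_self x)⟩
    have hO0 : (0 : ℝ) < O.card := by exact_mod_cast hOne.card_pos
    rw [abs_div, abs_of_pos hO0, div_le_iff₀ hO0]
    calc |∑ y ∈ O, f (fun j => (S j).pt (D k j) (y j))|
        ≤ ∑ y ∈ O, |f (fun j => (S j).pt (D k j) (y j))| := abs_sum_le_sum_abs _ _
      _ ≤ ∑ _y ∈ O, ‖f‖ := sum_le_sum fun y _ => f.norm_coe_le_norm _
      _ = ‖f‖ * O.card := by rw [sum_const, nsmul_eq_mul, mul_comm]
  have hI : ∀ f, |I f| ≤ ‖f‖ := by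
    intro f
    change |∫ z, f z ∂(Measure.pi m)| ≤ ‖f‖
    have := norm_integral_le_of_norm_le_const (μ := Measure.pi m) (C := ‖f‖)
      (Eventually.of_forall fun z => f.norm_coe_le_norm z)
    simpa using this
  -- the mean error
  let b : ℕ → C((∀ j, X j), ℝ) → ℝ := fun k f => (∑ x : Q k, |L k x f - I f|) / Fintype.card (Q k)
  have hc0 : ∀ k, (0 : ℝ) < Fintype.card (Q k) := fun k => by exact_mod_cast Fintype.card_pos
  have hb0 : ∀ k f, 0 ≤ b k f := fun k f =>
    div_nonneg (sum_nonneg fun x _ => abs_nonneg _) (hc0 k).le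
  have hb_lip : ∀ k f g, b k f ≤ b k g + 2 * ‖f - g‖ := by
    intro k f g
    simp only [b]
    rw [div_add' _ _ _ (hc0 k).ne']
    refine div_le_div_of_nonneg_right ?_ (hc0 k).le
    calc ∑ x : Q k, |L k x f - I f| ≤ ∑ x : Q k, (|L k x g - I g| + 2 * ‖f - g‖) := by
          refine sum_le_sum fun x _ => ?_
          have e : L k x f - I f = (L k x g - I g) + L k x (f - g) - I (f - g) := by
            rw [map_sub, map_sub]; ring
          rw [e]
          have h1 := hL k x (f - g)
          have h2 := hI (f - g)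
          calc |(L k x g - I g) + L k x (f - g) - I (f - g)|
              ≤ |L k x g - I g| + |L k x (f - g)| + |I (f - g)| :=
                (abs_sub _ _).trans (add_le_add (abs_add_le _ _) le_rfl)
            _ ≤ _ := by linarith
      _ = ∑ x : Q k, |L k x g - I g| + 2 * ‖f - g‖ * Fintype.card (Q k) := by
          rw [sum_add_distrib, sum_const, card_univ, nsmul_eq_mul, mul_comm (2 * ‖f - g‖)]
  have hclosed := closed_err b hb0 hb_lip
  -- products
  have h1 : ∀ φ : ∀ j, C(X j, ℝ), Tendsto (fun k => b k (prodFn φ)) atTop (𝓝 0) := by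
    intro φ
    have e : I (prodFn φ) = ∏ j, ∫ t, φ j t ∂(m j) := by
      change ∫ z, prodFn φ z ∂(Measure.pi m) = _
      simp only [prodFn_apply]
      exact integral_fintype_prod_eq_prod (fun j t => φ j t)
    set B : ℝ := 1 + ∑ j, ‖φ j‖ with hB
    have hBj : ∀ j, ‖φ j‖ ≤ B := fun j => by
      have : ‖φ j‖ ≤ ∑ j, ‖φ j‖ := single_le_sum (f := fun j => ‖φ j‖)
        (fun j _ => norm_nonneg _) (mem_univ j)
      linarith
    have hB1 : 1 ≤ B := by
      have : 0 ≤ ∑ j, ‖φ j‖ := sum_nonneg fun j _ => norm_nonneg _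
      linarith
    set R : ℝ → ℝ := fun ε =>
      Real.sqrt (n * ((ℱ.index * ∏ j, (S j).bound : ℕ) * (ε * B)) * (B ^ 2) ^ n) +
        n * ε * B ^ n with hR
    have hRt : Tendsto R (𝓝 0) (𝓝 0) := by
      have hcont : Continuous R := by
        simp only [hR]
        fun_prop
      have := hcont.tendsto 0
      simpa [hR] using this
    rw [Metric.tendsto_atTop]
    intro η hη
    obtain ⟨δ, hδ, hδR⟩ := Metric.eventually_nhds_iff.1 (hRt.eventually (gt_mem_nhds hη))
    have hε : (0 : ℝ) < δ / 2 := by positivity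
    choose M hM using fun j => hS j (φ j) (δ / 2) hε
    have hev : ∀ᶠ k in atTop, ∀ j, M j ≤ (S j).size (D k j) :=
      eventually_all.2 fun j => (hD j).eventually_ge_atTop (M j)
    obtain ⟨K, hK⟩ := eventually_atTop.1 hev
    refine ⟨K, fun k hk => ?_⟩
    rw [Real.dist_eq, sub_zero, abs_of_nonneg (hb0 _ _)]
    have hme := mean_error ℱ m S φ B hB1 (fun j t => (φ j).norm_coe_le_norm t |>.trans (hBj j))
      (fun j => by
        have := norm_integral_le_of_norm_le_const (μ := m j) (C := ‖φ j‖)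
          (Eventually.of_forall fun z => (φ j).norm_coe_le_norm z)
        have h5 : |∫ t, φ j t ∂(m j)| ≤ ‖φ j‖ := by simpa using this
        exact h5.trans (hBj j))
      (D k) (δ / 2) hε.le
      (fun j x χ => by
        have := hM j (D k j) (hK k hk j) x χ
        convert this)
    have hRk : R (δ / 2) < η := hδR (by
      rw [Real.dist_eq, sub_zero, abs_of_pos hε]; linarith)
    refine lt_of_le_of_lt ?_ hRk
    refine le_trans (le_of_eq ?_) hme
    simp only [b]
    rw [e]
    congr 1
    refine sum_congr rfl fun x _ => ?_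
    change |orbitAverage ℱ x (fun y => prodFn φ (fun j => (S j).pt (D k j) (y j))) - _| = _
    have e5 : (fun y : Q k => prodFn φ (fun j => (S j).pt (D k j) (y j))) =
        fun y => ∏ j, φ j ((S j).pt (D k j) (y j)) := funext fun y => prodFn_apply _ _
    rw [e5]
  have h3 : ∀ f, Tendsto (fun k => b k f) atTop (𝓝 0) := by
    have hsub : (Submodule.span ℝ (Set.range (prodFn : (∀ j, C(X j, ℝ)) → C((∀ j, X j), ℝ))) :
        Set C((∀ j, X j), ℝ)) ⊆ {f : C((∀ j, X j), ℝ) | Tendsto (fun k => b k f) atTop (𝓝 0)} := by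
      intro f hf
      refine Submodule.span_induction (p := fun f _ => Tendsto (fun k => b k f) atTop (𝓝 0))
        ?_ ?_ ?_ ?_ hf
      · rintro _ ⟨g, rfl⟩
        exact h1 g
      · have : ∀ k, b k 0 = 0 := fun k => by simp [b]
        simp only [this]
        exact tendsto_const_nhds
      · intro f g _ _ hf hg
        have h0 := hf.add hg
        rw [add_zero] at h0
        refine squeeze_zero (fun k => hb0 k _) (fun k => ?_) h0
        simp only [b]
        rw [← add_div, ← sum_add_distrib]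
        refine div_le_div_of_nonneg_right (sum_le_sum fun x _ => ?_) (hc0 k).le
        rw [map_add, map_add]
        have e : L k x f + L k x g - (I f + I g) = (L k x f - I f) + (L k x g - I g) := by ring
        rw [e]
        exact abs_add_le _ _
      · intro c f _ hf
        have h0 := hf.const_mul |c|
        rw [mul_zero] at h0
        refine h0.congr fun k => ?_
        simp only [b]
        rw [mul_div_assoc', mul_sum]
        congr 1
        refine sum_congr rfl fun x _ => ?_
        rw [map_smul, map_smul, smul_eq_mul, smul_eq_mul, ← mul_sub, abs_mul]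
    intro f
    exact (hclosed.closure_subset_iff.2 hsub) (dense_span f)
  refine ⟨fun f => ?_, exists_sets Q L I hL hI h3⟩
  refine (h3 f).congr fun k => ?_
  simp only [b]
  rw [finsum_eq_sum_of_fintype, Nat.card_eq_fintype_card]
  rfl

end Final

end Pool.Agent.Results.MP_9177b7_ag.AlmostAllPacketProducts
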